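import Pool.Agent.H29.FL4.Stmts

set_option autoImplicit false

open Matrix

namespace Pool.FL4

open Pool.FLT

theorem eql (det : DETStmt) : EQLStmt := by
  intro i hi s d x hE hd
  have hdet : (Gs i s).det ≠ 0 := (det i hi).2 s
  obtain ⟨hd0, hiff⟩ := hE
  have hrow : ∀ k : Fin 4, inL i s (fun j => Gs i s k j) := by
    intro k
    fin_cases k
    · exact ⟨![1, 0, 0, 0], fun j => by simp [Gs]⟩
    · exact ⟨![0, 1, 0, 0], fun j => by simp [Gs]⟩
    · exact ⟨![0, 0, 1, 0], fun j => by simp [Gs]⟩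
    · exact ⟨![0, 0, 0, 1], fun j => by simp [Gs]⟩
  have hm : ∀ k : Fin 4, ∃ m : Fin 4 → ℤ, ∀ j,
      Gs i s k j * d j = ∑ l, (m l : ℝ) * Gs i s l j := by
    intro k
    obtain ⟨m, hm⟩ := (hiff _).1 (hrow k)
    refine ⟨m, fun j => ?_⟩
    have hj : Gs i s k j * d j = _ := hm j
    rw [hj, Fin.sum_univ_four]
    simp only [Gs, of_apply, cons_val]
    ring
  choose η hη using hm
  refine ⟨Matrix.of η, d, ?_, hd⟩
  have h1 : cst (Matrix.of η) * Gs i s = Gs i s * diagonal d := by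
    ext k j
    rw [mul_apply, mul_diagonal, hη k j]
    rfl
  unfold Dg nrm
  rw [dif_pos hdet]
  rw [← Matrix.mul_assoc, h1, Matrix.mul_assoc, Matrix.mul_assoc, diagonal_mul_diagonal,
    diagonal_mul_diagonal]
  congr 2
  ext j
  ring

end Pool.FL4
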